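import Mathlib

/-! Specification of the blocks for the Hewitt-Ross problem (S01123).
Plan: /team-store/MP_3312ae_lead_plan.md and /team-store/MP_3312ae_H13_plan.md. -/

set_option autoImplicit false

namespace Pool.Agent.MP_3312ae_al.HR

/-- B1 (Herfort): a profinite torsion group involves finitely many primes. -/
def Herfort : Prop :=
  ∀ (G : Type) [Group G] [TopologicalSpace G] [IsTopologicalGroup G] [CompactSpace G] [T2Space G]
    [TotallyDisconnectedSpace G], (∀ g : G, IsOfFinOrder g) →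
    {p : ℕ | p.Prime ∧ ∃ g : G, p ∣ orderOf g}.Finite

/-- B2 (profinite Sylow): in a profinite torsion group there is a closed `p`-subgroup that
contains a conjugate of every `p`-element. -/
def SylowConj : Prop :=
  ∀ (G : Type) [Group G] [TopologicalSpace G] [IsTopologicalGroup G] [CompactSpace G] [T2Space G]
    [TotallyDisconnectedSpace G], (∀ g : G, IsOfFinOrder g) → ∀ p : ℕ, p.Prime →
    ∃ P : Subgroup G, IsClosed (P : Set G) ∧ IsPGroup p P ∧
      ∀ g : G, (∃ k : ℕ, g ^ p ^ k = 1) → ∃ h : G, h * g * h⁻¹ ∈ P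

/-- The Lie commutators (all bracketings) in the elements `a i`. -/
inductive IsComm {L : Type} [LieRing L] {ι : Type} (a : ι → L) : L → Prop
  | gen (i : ι) : IsComm a (a i)
  | br {x y : L} : IsComm a x → IsComm a y → IsComm a ⁅x, y⁆

/-- `⁅y₁, ⁅y₂, … ⁅yₙ, x⁆⁆⁆` for the list `[y₁, …, yₙ]`. -/
def adList {L : Type} [LieRing L] (ys : List L) (x : L) : L := ys.foldr (fun y z => ⁅y, z⁆) x

/-- The linearised Engel identity of degree `n`. -/
def LinEngel (L : Type) [LieRing L] (n : ℕ) : Prop :=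
  ∀ (y : Fin n → L) (x : L), ∑ σ : Equiv.Perm (Fin n), adList (List.ofFn (fun i => y (σ i))) x = 0

/-- C2 (Zelmanov's theorem). -/
def ThmZ : Prop :=
  ∀ (p : ℕ) [Fact p.Prime] (L : Type) [LieRing L] [LieAlgebra (ZMod p) L] (r n : ℕ)
    (a : Fin r → L), LieSubalgebra.lieSpan (ZMod p) L (Set.range a) = ⊤ → LinEngel L n →
    (∀ x, IsComm a x → ∃ k : ℕ, ∀ z : L, adList (List.replicate k x) z = 0) →
    LieRing.IsNilpotent L

/-- C (Zelmanov 1992): a profinite `p`-torsion group is locally finite. C1 is `ThmZ → LocFin`. -/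
def LocFin : Prop :=
  ∀ (p : ℕ) [Fact p.Prime] (G : Type) [Group G] [TopologicalSpace G] [IsTopologicalGroup G]
    [CompactSpace G] [T2Space G] [TotallyDisconnectedSpace G], IsPGroup p G →
    ∀ S : Finset G, Finite (Subgroup.closure (S : Set G))

/-- D (Kostrikin-Zelmanov), uniform form: `r` sandwiches generate a nilpotent Lie algebra of
`r`-bounded class. -/
def KZ : Prop :=
  ∀ (k : Type) [Field k] (r : ℕ), ∃ c : ℕ, ∀ (L : Type) [LieRing L] [LieAlgebra k L]
    (a : Fin r → L), LieSubalgebra.lieSpan k L (Set.range a) = ⊤ →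
    (∀ i (x : L), ⁅a i, ⁅a i, x⁆⁆ = 0) → (∀ i (x y : L), ⁅a i, ⁅x, ⁅a i, y⁆⁆⁆ = 0) →
    LieModule.lowerCentralSeries k L L c = ⊥

/-- Ring commutators (all bracketings) in the elements `a i` of a ring. -/
inductive IsRComm {R : Type} [Ring R] {ι : Type} (a : ι → R) : R → Prop
  | gen (i : ι) : IsRComm a (a i)
  | br {x y : R} : IsRComm a x → IsRComm a y → IsRComm a (x * y - y * x)

/-- D' (associative corollary of KZ, row `KZ → KZAssoc`). -/
def KZAssoc : Prop :=
  ∀ (k : Type) [Field k] (r : ℕ), ∃ s : ℕ, ∀ (R : Type) [Ring R] [Algebra k R] (a : Fin r → R),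
    (∀ i, a i * a i = 0) →
    (∀ i l, IsRComm a l → a i * l * a i = 0) →
    ∀ w : List (Fin r), s ≤ w.length → (w.map a).prod = 0

/-- Box law: every tuple `(t i * n i)` with `n i ∈ N` satisfies the relators in `K`. -/
def Box {H : Type} [Group H] {ι : Type} (N : Subgroup H) (t : ι → H)
    (K : Subgroup (FreeGroup ι)) : Prop :=
  ∀ n : ι → H, (∀ i, n i ∈ N) → ∀ w ∈ K, FreeGroup.lift (fun i => t i * n i) w = 1

/-- E, finite form, for tuples of length `D`. -/
def BoxBound (D : ℕ) : Prop :=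
  ∀ (p : ℕ) [Fact p.Prime] (K : Subgroup (FreeGroup (Fin D))) [K.Normal], K.FiniteIndex →
    IsPGroup p (FreeGroup (Fin D) ⧸ K) → ∀ s : ℕ, ∃ B : ℕ,
    ∀ (H : Type) [Group H] [Finite H], IsPGroup p H → ∀ (N : Subgroup H) [N.Normal]
      (t : Fin D → H) (Y : Finset H), Y.card ≤ s → (∀ y ∈ Y, y ∈ N) →
      Subgroup.closure (Set.range t ∪ (Y : Set H)) = ⊤ → Box N t K → Nat.card H ≤ B

/-- E: a locally finite profinite `p`-torsion group has finite exponent
(row `BoxBound D → LocFinExp`). -/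
def LocFinExp : Prop :=
  ∀ (p : ℕ) [Fact p.Prime] (G : Type) [Group G] [TopologicalSpace G] [IsTopologicalGroup G]
    [CompactSpace G] [T2Space G] [TotallyDisconnectedSpace G], IsPGroup p G →
    (∀ S : Finset G, Finite (Subgroup.closure (S : Set G))) → ∃ k : ℕ, ∀ g : G, g ^ p ^ k = 1

/-- The frozen statement; assembly row
`Herfort → SylowConj → LocFin → LocFinExp → Main` (uses `H59.td`). -/
def Main : Prop :=
  ∀ (G : Type) [Group G] [TopologicalSpace G] [IsTopologicalGroup G]
    [CompactSpace G] [T2Space G],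
    (∀ n : ℕ, ∃ g : G, 0 < orderOf g ∧ n ≤ orderOf g) → ∃ g : G, orderOf g = 0

end Pool.Agent.MP_3312ae_al.HR
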